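import Pool.Agent.V11235.SC.Loc
import Pool.Agent.W623.SecC.Glob

/-! Families of hyperelliptic curves with a ramified fibre: primes and density. -/

set_option autoImplicit false

namespace Pool.Agent.V11235.SC

open Polynomial NumberField IsDedekindDomain
open Pool.Agent.W417.SecC.D2 (card_sq norm_pos card_ker crt count)

universe u v w

/-- the prime `v` obstructs all `t` close to some `t₀` -/
def GoodAt {K : Type u} [Field K] [NumberField K] (F : (𝓞 K)[X][X]) (g : (𝓞 K)[X])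
    (v : HeightOneSpectrum (𝓞 K)) : Prop :=
  (2 : 𝓞 K) ∉ v.asIdeal ∧ ∃ t₀ : 𝓞 K, (derivative g).eval t₀ ∉ v.asIdeal ∧
    ∀ t : 𝓞 K, t - t₀ ∈ v.asIdeal →
      g.eval t ∈ v.asIdeal ∧ (mem F t).natDegree = F.natDegree ∧
      (mem F t).leadingCoeff ∉ v.asIdeal ∧
      ((mem F t).map (Ideal.Quotient.mk v.asIdeal)).Separable ∧
      ∀ r : 𝓞 K ⧸ v.asIdeal, ((mem F t).map (Ideal.Quotient.mk v.asIdeal)).eval r ≠ 0

theorem family_primes {K L : Type u} [Field K] [NumberField K] [Field L] [NumberField L]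
    (i : K →+* L) (θ : L) (g : (𝓞 K)[X]) (F : (𝓞 K)[X][X])
    (hg : g.eval₂ (iL i) θ = 0) (hg' : (derivative g).eval₂ (iL i) θ ≠ 0)
    (hlc : (F.leadingCoeff).eval₂ (iL i) θ ≠ 0)
    (hsep : (F.map (eval₂RingHom (iL i) θ)).Separable)
    (hσ : ∃ σ : AlgebraicClosure L ≃ₐ[L] AlgebraicClosure L,
      ∀ x : AlgebraicClosure L, aeval x (F.map (eval₂RingHom (iL i) θ)) = 0 → σ x ≠ x) :
    ∃ S : Set ℕ, (∀ p ∈ S, p.Prime) ∧ Div S ∧ ∀ p ∈ S, ∃ v : HeightOneSpectrum (𝓞 K),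
      GoodAt F g v ∧ Ideal.absNorm v.asIdeal = p := by
  classical
  set f : L[X] := F.map (eval₂RingHom (iL i) θ) with hf
  have hinj : Function.Injective (algebraMap (𝓞 L) L) := IsFractionRing.injective (𝓞 L) L
  obtain ⟨c, hc, hcf⟩ := IsLocalization.integerNormalization_spec (nonZeroDivisors (𝓞 L)) f
  set h := IsLocalization.integerNormalization (nonZeroDivisors (𝓞 L)) f with hh
  have hc0 : c ≠ 0 := nonZeroDivisors.ne_zero hc
  have hcK : algebraMap (𝓞 L) L c ≠ 0 := by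
    rw [Ne, map_eq_zero_iff _ hinj]
    exact hc0
  have hgf : h.map (algebraMap (𝓞 L) L) = C (algebraMap (𝓞 L) L c) * f := by
    rw [hcf]
    ext i
    rw [coeff_smul, coeff_C_mul, Algebra.smul_def]
  have hfdeg : f.natDegree = F.natDegree := by
    rw [hf]
    exact natDegree_map_of_leadingCoeff_ne_zero _ hlc
  have hdeg : h.natDegree = F.natDegree := by
    rw [← hfdeg, ← natDegree_map_eq_of_injective hinj h, hgf, natDegree_C_mul hcK]
  have hgs : (h.map (algebraMap (𝓞 L) L)).Separable := by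
    rw [hgf]
    exact Separable.unit_mul (isUnit_C.2 hcK.isUnit) hsep
  have hgσ : ∃ σ : AlgebraicClosure L ≃ₐ[L] AlgebraicClosure L,
      ∀ x : AlgebraicClosure L, aeval x (h.map (algebraMap (𝓞 L) L)) = 0 → σ x ≠ x := by
    obtain ⟨σ, hσ⟩ := hσ
    refine ⟨σ, fun x hx => hσ x ?_⟩
    rw [hgf, map_mul, aeval_C] at hx
    exact (mul_eq_zero.1 hx).resolve_left ((_root_.map_ne_zero _).2 hcK)
  obtain ⟨α, d, hdm, hαd⟩ := IsFractionRing.div_surjective (A := 𝓞 L) θ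
  have hd0 : d ≠ 0 := nonZeroDivisors.ne_zero hdm
  have hdK : (algebraMap (𝓞 L) L) d ≠ 0 := by
    rw [Ne, map_eq_zero_iff _ hinj]
    exact hd0
  have hα : (α : L) = d * θ := by
    rw [← hαd]
    field_simp
  obtain ⟨β, e, hem, hβe⟩ := IsFractionRing.div_surjective (A := 𝓞 L)
    ((derivative g).eval₂ (iL i) θ)
  have he0 : e ≠ 0 := nonZeroDivisors.ne_zero hem
  have heK : (algebraMap (𝓞 L) L) e ≠ 0 := by
    rw [Ne, map_eq_zero_iff _ hinj]
    exact he0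
  have hβ : (β : L) = e * (derivative g).eval₂ (iL i) θ := by
    rw [← hβe]
    field_simp
  have hβ0 : β ≠ 0 := by
    rintro rfl
    rw [map_zero, zero_div] at hβe
    exact hg' hβe.symm
  obtain ⟨S, hSp, hSd, hS⟩ := prim L h (c * d * β) (mul_ne_zero (mul_ne_zero hc0 hd0) hβ0) hgs hgσ
  refine ⟨S, hSp, hSd, fun p hp => ?_⟩
  obtain ⟨w, ⟨hcw, h2w, hlw, hsw, hrw⟩, hwp⟩ := hS p hp
  have hcw1 : c ∉ w.asIdeal := fun h0 =>
    hcw (Ideal.mul_mem_right _ _ (Ideal.mul_mem_right _ _ h0))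
  have hdw : d ∉ w.asIdeal := fun h0 =>
    hcw (Ideal.mul_mem_right _ _ (Ideal.mul_mem_left _ _ h0))
  have hβw : β ∉ w.asIdeal := fun h0 => hcw (Ideal.mul_mem_left _ _ h0)
  obtain ⟨v, hv1, hv2, hv3⟩ := at_prime i w p (hSp p hp) hwp h2w θ α d hdw hα F h c hcw1 hgf hdeg
    hlw hsw hrw g hg β e hβ hβw
  exact ⟨v, ⟨hv2, hv3⟩, hv1⟩

/-- few classes modulo the square of the prime are not obstructed -/
theorem card_bad {K : Type u} [Field K] [NumberField K] (v : HeightOneSpectrum (𝓞 K))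
    (g : (𝓞 K)[X]) (t₀ : 𝓞 K) (hg' : (derivative g).eval t₀ ∉ v.asIdeal) :
    (((Ideal.Quotient.mk (v.asIdeal ^ 2)) ''
      {t : 𝓞 K | t - t₀ ∈ v.asIdeal → g.eval t ∈ v.asIdeal ^ 2}).ncard : ℝ) ≤
      (1 - (1 / (Ideal.absNorm v.asIdeal : ℝ) - 1 / (Ideal.absNorm v.asIdeal : ℝ) ^ 2)) *
        (Ideal.absNorm v.asIdeal : ℝ) ^ 2 := by
  classical
  set N := Ideal.absNorm v.asIdeal with hN
  have hNp : 0 < N := norm_pos v
  set π := Ideal.Quotient.mk (v.asIdeal ^ 2) with hπ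
  set J : Ideal (𝓞 K ⧸ v.asIdeal ^ 2) := v.asIdeal.map π with hJ
  have hfin : Finite (𝓞 K ⧸ v.asIdeal ^ 2) := by
    apply Nat.finite_of_card_ne_zero
    rw [card_sq]
    positivity
  have hle : v.asIdeal ^ 2 ≤ v.asIdeal := Ideal.pow_le_self two_ne_zero
  have hvm : v.asIdeal.IsMaximal := v.isMaximal
  have hJmem : ∀ a : 𝓞 K, π a ∈ J ↔ a ∈ v.asIdeal := by
    intro a
    constructor
    · intro h
      have : a ∈ J.comap π := h
      rw [hJ, Ideal.comap_map_of_surjective _ Ideal.Quotient.mk_surjective,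
        ← RingHom.ker_eq_comap_bot, Ideal.mk_ker] at this
      rwa [sup_eq_left.mpr hle] at this
    · intro h
      exact Ideal.mem_map_of_mem _ h
  -- the classes close to `t₀`
  set D : Set (𝓞 K ⧸ v.asIdeal ^ 2) := (fun z => π t₀ + z) '' (J : Set _) with hD
  have hDmem : ∀ a : 𝓞 K, π a ∈ D ↔ a - t₀ ∈ v.asIdeal := by
    intro a
    rw [← hJmem, map_sub]
    constructor
    · rintro ⟨z, hz, hz2⟩
      have : π a - π t₀ = z := by rw [← hz2]; ring
      rw [this]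
      exact hz
    · intro h
      exact ⟨_, h, by ring⟩
  have hDc : D.ncard = N := by
    rw [hD, Set.ncard_image_of_injective _ (add_right_injective _), ← Nat.card_coe_set_eq]
    exact card_ker v
  set B : Set (𝓞 K ⧸ v.asIdeal ^ 2) := π '' {t : 𝓞 K | t - t₀ ∈ v.asIdeal ∧
    g.eval t ∈ v.asIdeal ^ 2} with hB
  have hcong : ∀ a b : 𝓞 K, π a = π b → (g.eval a ∈ v.asIdeal ^ 2 ↔ g.eval b ∈ v.asIdeal ^ 2) := by
    intro a b hab
    rw [← Ideal.Quotient.eq_zero_iff_mem, ← Ideal.Quotient.eq_zero_iff_mem]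
    have h1 : ∀ x : 𝓞 K, π (g.eval x) = g.eval₂ π (π x) := fun x => (eval₂_at_apply π x).symm
    have h3 : Ideal.Quotient.mk (v.asIdeal ^ 2) (g.eval a) =
        Ideal.Quotient.mk (v.asIdeal ^ 2) (g.eval b) := by
      change π (g.eval a) = π (g.eval b)
      rw [h1, h1, hab]
    rw [h3]
  have hBc : B.ncard ≤ 1 := by
    rw [Set.ncard_le_one]
    rintro _ ⟨a, ⟨ha1, ha2⟩, rfl⟩ _ ⟨b, ⟨hb1, hb2⟩, rfl⟩
    obtain ⟨k, hk⟩ := Polynomial.binomExpansion g a (b - a)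
    have hba : b - a ∈ v.asIdeal := by
      have := Ideal.sub_mem _ hb1 ha1
      rwa [sub_sub_sub_cancel_right] at this
    rw [add_sub_cancel] at hk
    have h1 : (derivative g).eval a * (b - a) ∈ v.asIdeal ^ 2 := by
      have h3 : (derivative g).eval a * (b - a) = g.eval b - g.eval a - k * (b - a) ^ 2 := by
        rw [hk]; ring
      rw [h3]
      exact Ideal.sub_mem _ (Ideal.sub_mem _ hb2 ha2)
        (Ideal.mul_mem_left _ _ (Ideal.pow_mem_pow hba 2))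
    have h3 : (derivative g).eval a ∉ v.asIdeal := by
      intro h0
      apply hg'
      have h5 := Polynomial.sub_dvd_eval_sub a t₀ (derivative g)
      obtain ⟨m, hm⟩ := h5
      have h6 : (derivative g).eval t₀ = (derivative g).eval a - (a - t₀) * m := by
        rw [← hm]; ring
      rw [h6]
      exact Ideal.sub_mem _ h0 (Ideal.mul_mem_right _ _ ha1)
    rcases Ideal.IsMaximal.mul_mem_pow _ h1 with h4 | h4
    · exact absurd h4 h3
    · rw [eq_comm, ← sub_eq_zero, ← map_sub, Ideal.Quotient.eq_zero_iff_mem]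
      exact h4
  set A : Set (𝓞 K ⧸ v.asIdeal ^ 2) :=
    π '' {t : 𝓞 K | t - t₀ ∈ v.asIdeal → g.eval t ∈ v.asIdeal ^ 2} with hA
  have hdisj : Disjoint A (D \ B) := by
    rw [Set.disjoint_left]
    rintro _ ⟨a, ha, rfl⟩ ⟨h1, h3⟩
    rw [hDmem] at h1
    exact h3 ⟨a, ⟨h1, ha h1⟩, rfl⟩
  have h1 : A.ncard + (D \ B).ncard ≤ N ^ 2 := by
    rw [← Set.ncard_union_eq hdisj (Set.toFinite _) (Set.toFinite _), ← card_sq, ← Set.ncard_univ]
    exact Set.ncard_le_ncard (Set.subset_univ _) (Set.toFinite _)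
  have h3 : D.ncard ≤ (D \ B).ncard + B.ncard :=
    Set.ncard_le_ncard_sdiff_add_ncard _ _ (Set.toFinite _)
  have h2 : A.ncard + N ≤ N ^ 2 + 1 := by omega
  have h3 : (A.ncard : ℝ) + N ≤ (N : ℝ) ^ 2 + 1 := by exact_mod_cast h2
  have hN0 : (N : ℝ) ≠ 0 := by positivity
  have h4 : (1 - (1 / (N : ℝ) - 1 / (N : ℝ) ^ 2)) * (N : ℝ) ^ 2 = (N : ℝ) ^ 2 - N + 1 := by
    field_simp
    ring
  rw [h4]
  linarith

/-- counting the classes of `t` that no prime of `T` obstructs -/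
theorem count_classes {K : Type u} [Field K] [NumberField K] (g : (𝓞 K)[X])
    (T : Finset (HeightOneSpectrum (𝓞 K))) (t₀ : HeightOneSpectrum (𝓞 K) → 𝓞 K)
    (ht₀ : ∀ v ∈ T, (derivative g).eval (t₀ v) ∉ v.asIdeal) (E : Set (𝓞 K))
    (hE : ∀ t ∈ E, ∀ v ∈ T, t - t₀ v ∈ v.asIdeal → g.eval t ∈ v.asIdeal ^ 2) :
    (Set.ncard ((Ideal.Quotient.mk (∏ v ∈ T, v.asIdeal ^ 2)) '' E) : ℝ) ≤
      (∏ v ∈ T, (1 - (1 / (Ideal.absNorm v.asIdeal : ℝ) - 1 / (Ideal.absNorm v.asIdeal : ℝ) ^ 2))) *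
        Nat.card (𝓞 K ⧸ ∏ v ∈ T, v.asIdeal ^ 2) := by
  classical
  obtain ⟨e, he⟩ := crt T
  have hfin : ∀ v : T, Finite (𝓞 K ⧸ v.1.asIdeal ^ 2) := by
    intro v
    apply Nat.finite_of_card_ne_zero
    rw [card_sq]
    exact pow_ne_zero _ (norm_pos _).ne'
  have hcard : (Nat.card (𝓞 K ⧸ ∏ v ∈ T, v.asIdeal ^ 2) : ℝ) =
      ∏ v ∈ T, (Ideal.absNorm v.asIdeal : ℝ) ^ 2 := by
    rw [Nat.card_congr e.toEquiv, Nat.card_pi, ← Finset.prod_coe_sort T]
    push_cast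
    refine Finset.prod_congr rfl fun v _ => ?_
    rw [card_sq]
    push_cast
    rfl
  have h1 := count (∏ v ∈ T, v.asIdeal ^ 2) T (fun v => v.1.asIdeal ^ 2) e he hfin E
    (fun v => (Ideal.Quotient.mk (v.1.asIdeal ^ 2)) ''
      {t : 𝓞 K | t - t₀ v.1 ∈ v.1.asIdeal → g.eval t ∈ v.1.asIdeal ^ 2})
    (fun a ha v => ⟨a, hE a ha v.1 v.2, rfl⟩)
  have h1' : (((Ideal.Quotient.mk (∏ v ∈ T, v.asIdeal ^ 2)) '' E).ncard : ℝ) ≤
      ∏ v : T, ((((Ideal.Quotient.mk (v.1.asIdeal ^ 2)) ''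
      {t : 𝓞 K | t - t₀ v.1 ∈ v.1.asIdeal → g.eval t ∈ v.1.asIdeal ^ 2}).ncard : ℕ) : ℝ) := by
    exact_mod_cast h1
  refine h1'.trans ?_
  rw [hcard, ← Finset.prod_mul_distrib, ← Finset.prod_coe_sort T]
  exact Finset.prod_le_prod (fun _ _ => by positivity) fun v _ => card_bad v.1 g _ (ht₀ v.1 v.2)

/-- **Density**: the fibres that are not fine have density zero. -/
theorem density {K L : Type u} [Field K] [NumberField K] [Field L] [NumberField L]
    (i : K →+* L) (θ : L) (g : (𝓞 K)[X]) (F : (𝓞 K)[X][X])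
    (hev : Even F.natDegree) (h4 : 4 ≤ F.natDegree)
    (hg : g.eval₂ (iL i) θ = 0) (hg' : (derivative g).eval₂ (iL i) θ ≠ 0)
    (hlc : (F.leadingCoeff).eval₂ (iL i) θ ≠ 0)
    (hsep : (F.map (eval₂RingHom (iL i) θ)).Separable)
    (hσ : ∃ σ : AlgebraicClosure L ≃ₐ[L] AlgebraicClosure L,
      ∀ x : AlgebraicClosure L, aeval x (F.map (eval₂RingHom (iL i) θ)) = 0 → σ x ≠ x)
    (ε : ℝ) (hε : 0 < ε) :
    ∃ I : Ideal (𝓞 K), I ≠ ⊥ ∧
      (Set.ncard ((Ideal.Quotient.mk I) ''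
        {t : 𝓞 K | ¬ Pool.Agent.W623.SecC.Fine.{u, v, w} (algebraMap (𝓞 K) K (g.eval t))
          ((mem F t).map (algebraMap (𝓞 K) K))}) : ℝ) ≤
      ε * Nat.card (𝓞 K ⧸ I) := by
  classical
  obtain ⟨S, hSp, hSd, hS⟩ := family_primes i θ g F hg hg' hlc hsep hσ
  obtain ⟨T, hT, hTε⟩ := Pool.Agent.W723.SecC.many S hSp hSd
    (fun v : HeightOneSpectrum (𝓞 K) => Ideal.absNorm v.asIdeal) (GoodAt F g) hS ε hε
  choose! t₀ ht₀ using fun v hv => (hT v hv).2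
  refine ⟨∏ v ∈ T, v.asIdeal ^ 2, ?_, ?_⟩
  · exact Finset.prod_ne_zero_iff.2 fun v _ => pow_ne_zero _ v.ne_bot
  · refine (count_classes g T t₀ (fun v hv => (ht₀ v hv).1) _ ?_).trans
      (mul_le_mul_of_nonneg_right hTε.le (Nat.cast_nonneg _))
    intro t ht v hv htv
    by_contra hcon
    apply ht
    obtain ⟨h1, h2, h3, h5, h6⟩ := (ht₀ v hv).2 t htv
    have h2v := (hT v hv).1
    have hb : g.eval t ∈ v.asIdeal ^ 1 := by rwa [pow_one]
    refine ⟨?_, ?_, ?_⟩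
    · intro F' Ω _ _ _ _ _ _ _ _ U hU x y hxy
      exact Pool.Agent.W623.SecC.prime_no_section v h2v (mem F t) h3 h5 h6 (g.eval t) 1 odd_one hb
        hcon (by rwa [h2]) (by rwa [h2]) U hU x y hxy
    · intro x y
      exact Pool.Agent.W623.SecC.prime_no_point v h2v (mem F t) h3 h5 h6 (g.eval t) 1 odd_one hb
        hcon (by rwa [h2]) x y
    · intro r hr
      refine Pool.Agent.W623.SecC.prime_no_infinite v h2v (mem F t) h3 h5 h6 (g.eval t) 1 odd_one hb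
        hcon r ?_
      rw [hr, leadingCoeff_map_of_injective (IsFractionRing.injective (𝓞 K) K)]

end Pool.Agent.V11235.SC
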