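import Pool.Agent.V11235.SC.Prim

/-! Transfer from a prime of degree one of the field of a ramified fibre to the base field. -/

set_option autoImplicit false

namespace Pool.Agent.V11235.SC

open Polynomial NumberField IsDedekindDomain

universe u

variable {K L : Type u} [Field K] [NumberField K] [Field L] [NumberField L]

/-- the embedding of the integers of `K` into `L` -/
noncomputable def iL (i : K →+* L) : 𝓞 K →+* L := i.comp (algebraMap (𝓞 K) K)

/-- the member of the family at `t` -/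
noncomputable def mem (F : (𝓞 K)[X][X]) (t : 𝓞 K) : (𝓞 K)[X] := F.map (evalRingHom t)

/-- the prime below -/
theorem below (i : K →+* L) (w : HeightOneSpectrum (𝓞 L)) (p : ℕ) (hp : p.Prime)
    (hw : Ideal.absNorm w.asIdeal = p) :
    ∃ v : HeightOneSpectrum (𝓞 K), Ideal.absNorm v.asIdeal = p ∧
      v.asIdeal = w.asIdeal.comap (RingOfIntegers.mapRingHom i) ∧
      ∀ y : 𝓞 L, ∃ x : 𝓞 K, RingOfIntegers.mapRingHom i x - y ∈ w.asIdeal := by
  classical
  set iO := RingOfIntegers.mapRingHom i with hiO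
  have hwp : w.asIdeal.IsPrime := w.isPrime
  set I := w.asIdeal.comap iO with hI
  have hIp : I.IsPrime := Ideal.comap_isPrime iO w.asIdeal
  have hpI : (p : 𝓞 K) ∈ I := by
    rw [hI, Ideal.mem_comap, map_natCast, ← hw]
    exact Ideal.absNorm_mem _
  have hI0 : I ≠ ⊥ := by
    intro h
    rw [h, Ideal.mem_bot] at hpI
    exact hp.ne_zero (by exact_mod_cast hpI)
  have hcardw : Nat.card (𝓞 L ⧸ w.asIdeal) = p := by
    rw [← hw, Ideal.absNorm_apply, Submodule.cardQuot_apply]
  let q : 𝓞 K ⧸ I →+* 𝓞 L ⧸ w.asIdeal := Ideal.quotientMap w.asIdeal iO le_rfl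
  have hq : Function.Injective q := Ideal.quotientMap_injective
  have hdvd : Nat.card (𝓞 K ⧸ I) ∣ p := by
    rw [← hcardw]
    exact AddSubgroup.card_dvd_of_injective q.toAddMonoidHom hq
  have hfin : Finite (𝓞 K ⧸ I) := Ideal.finiteQuotientOfFreeOfNeBot _ hI0
  have hnt : Nontrivial (𝓞 K ⧸ I) := Ideal.Quotient.nontrivial_iff.2 hIp.ne_top
  have hcard : Nat.card (𝓞 K ⧸ I) = p := by
    rcases (Nat.dvd_prime hp).1 hdvd with h | h
    · have := Finite.one_lt_card (α := 𝓞 K ⧸ I)
      omega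
    · exact h
  have hfinw : Finite (𝓞 L ⧸ w.asIdeal) := Ideal.finiteQuotientOfFreeOfNeBot _ w.ne_bot
  have hqs : Function.Surjective q := by
    have h1 := (Nat.bijective_iff_injective_and_card q).2 ⟨hq, by rw [hcard, hcardw]⟩
    exact h1.2
  refine ⟨⟨I, hIp, hI0⟩, ?_, rfl, ?_⟩
  · rw [Ideal.absNorm_apply, Submodule.cardQuot_apply]
    exact hcard
  · intro y
    obtain ⟨x, hx⟩ := hqs (Ideal.Quotient.mk _ y)
    obtain ⟨x, rfl⟩ := Ideal.Quotient.mk_surjective x
    refine ⟨x, ?_⟩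
    rw [← Ideal.Quotient.eq_zero_iff_mem, map_sub, ← hx]
    have : q (Ideal.Quotient.mk I x) = Ideal.Quotient.mk _ (iO x) := rfl
    rw [this, sub_self]

theorem at_prime (i : K →+* L) (w : HeightOneSpectrum (𝓞 L)) (p : ℕ) (hp : p.Prime)
    (hw : Ideal.absNorm w.asIdeal = p) (h2 : (2 : 𝓞 L) ∉ w.asIdeal)
    (θ : L) (α d : 𝓞 L) (hd : d ∉ w.asIdeal) (hα : (α : L) = d * θ)
    (F : (𝓞 K)[X][X]) (h : (𝓞 L)[X]) (c : 𝓞 L) (hc : c ∉ w.asIdeal)
    (hh : h.map (algebraMap (𝓞 L) L) = C (c : L) * F.map (eval₂RingHom (iL i) θ))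
    (hdeg : h.natDegree = F.natDegree) (hlc : h.leadingCoeff ∉ w.asIdeal)
    (hsep : (h.map (Ideal.Quotient.mk w.asIdeal)).Separable)
    (hroot : ∀ a : 𝓞 L ⧸ w.asIdeal, (h.map (Ideal.Quotient.mk w.asIdeal)).eval a ≠ 0)
    (g : (𝓞 K)[X]) (hg : g.eval₂ (iL i) θ = 0) (β e : 𝓞 L)
    (hβ : (β : L) = e * (derivative g).eval₂ (iL i) θ) (hβw : β ∉ w.asIdeal) :
    ∃ v : HeightOneSpectrum (𝓞 K), Ideal.absNorm v.asIdeal = p ∧ (2 : 𝓞 K) ∉ v.asIdeal ∧
      ∃ t₀ : 𝓞 K, (derivative g).eval t₀ ∉ v.asIdeal ∧ ∀ t : 𝓞 K, t - t₀ ∈ v.asIdeal →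
        g.eval t ∈ v.asIdeal ∧ (mem F t).natDegree = F.natDegree ∧
        (mem F t).leadingCoeff ∉ v.asIdeal ∧
        ((mem F t).map (Ideal.Quotient.mk v.asIdeal)).Separable ∧
        ∀ r : 𝓞 K ⧸ v.asIdeal, ((mem F t).map (Ideal.Quotient.mk v.asIdeal)).eval r ≠ 0 := by
  classical
  obtain ⟨v, hvn, hvI, hvs⟩ := below i w p hp hw
  set iO := RingOfIntegers.mapRingHom i with hiO
  have hwp : w.asIdeal.IsPrime := w.isPrime
  have hwm : w.asIdeal.IsMaximal := w.isMaximal
  have hvp : v.asIdeal.IsPrime := v.isPrime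
  have hvm : v.asIdeal.IsMaximal := v.isMaximal
  have hmemv : ∀ x : 𝓞 K, x ∈ v.asIdeal ↔ iO x ∈ w.asIdeal := by
    intro x
    rw [hvI, Ideal.mem_comap]
  -- the local ring
  have hle : w.asIdeal.primeCompl ≤ nonZeroDivisors (𝓞 L) := w.asIdeal.primeCompl_le_nonZeroDivisors
  let B := Localization.subalgebra.ofField L w.asIdeal.primeCompl hle
  have hloc : IsLocalization.AtPrime B w.asIdeal :=
    Localization.subalgebra.isLocalization_ofField L w.asIdeal.primeCompl hle
  have hlocal : IsLocalRing B := IsLocalization.AtPrime.isLocalRing B w.asIdeal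
  have hunit : ∀ c : 𝓞 L, c ∉ w.asIdeal → IsUnit (algebraMap (𝓞 L) B c) := fun c hc =>
    (IsLocalization.AtPrime.isUnit_to_map_iff B w.asIdeal c).2 hc
  let eB : (𝓞 L ⧸ w.asIdeal) ≃+* IsLocalRing.ResidueField B :=
    IsLocalization.AtPrime.equivQuotMaximalIdeal w.asIdeal B
  have hcomp : (IsLocalRing.residue B).comp (algebraMap (𝓞 L) B) =
      (eB : (𝓞 L ⧸ w.asIdeal) →+* IsLocalRing.ResidueField B).comp
        (Ideal.Quotient.mk w.asIdeal) := by
    ext c
    rfl
  have hcompL : (algebraMap B L).comp (algebraMap (𝓞 L) B) = algebraMap (𝓞 L) L := by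
    ext c
    rfl
  have hBinj : Function.Injective (algebraMap B L) := Subtype.val_injective
  set ρ := IsLocalRing.residue B with hρ
  have hker : ∀ c : 𝓞 L, ρ (algebraMap (𝓞 L) B c) = 0 ↔ c ∈ w.asIdeal := by
    intro c
    have h1 : ρ (algebraMap (𝓞 L) B c) = eB (Ideal.Quotient.mk w.asIdeal c) :=
      RingHom.congr_fun hcomp c
    rw [h1, map_eq_zero_iff eB eB.injective, Ideal.Quotient.eq_zero_iff_mem]
  set j : 𝓞 K →+* B := (algebraMap (𝓞 L) B).comp iO with hj
  have hjL : (algebraMap B L).comp j = iL i := by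
    rw [hj, ← RingHom.comp_assoc, hcompL]
    ext x
    rfl
  have hjker : ∀ x : 𝓞 K, ρ (j x) = 0 ↔ x ∈ v.asIdeal := by
    intro x
    rw [hmemv, ← hker]
    rfl
  -- the point `θ`
  obtain ⟨du, hdu⟩ := hunit d hd
  set θB : B := algebraMap (𝓞 L) B α * ((du⁻¹ : Bˣ) : B) with hθB
  have hd0 : (d : L) ≠ 0 := by
    intro h0
    apply hd
    have : d = 0 := RingOfIntegers.coe_injective (by simpa using h0)
    rw [this]
    exact zero_mem _
  have hθ : algebraMap B L θB = θ := by
    have h1 : θB * algebraMap (𝓞 L) B d = algebraMap (𝓞 L) B α := by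
      rw [hθB, ← hdu, mul_assoc, Units.inv_mul, mul_one]
    have h3 := congrArg (algebraMap B L) h1
    rw [map_mul] at h3
    have h4 : ∀ c : 𝓞 L, algebraMap B L (algebraMap (𝓞 L) B c) = (c : L) := fun c => rfl
    rw [h4, h4, hα, mul_comm (d : L) θ] at h3
    exact mul_right_cancel₀ hd0 h3
  obtain ⟨t₀, ht₀⟩ : ∃ t₀ : 𝓞 K, ρ (j t₀) = ρ θB := by
    obtain ⟨y, hy⟩ := Ideal.Quotient.mk_surjective (eB.symm (ρ θB))
    obtain ⟨x, hx⟩ := hvs y
    refine ⟨x, ?_⟩
    have h1 : ρ (algebraMap (𝓞 L) B (iO x - y)) = 0 := (hker _).2 hx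
    rw [map_sub, map_sub, sub_eq_zero] at h1
    have h3 : ρ (algebraMap (𝓞 L) B y) = eB (Ideal.Quotient.mk w.asIdeal y) :=
      RingHom.congr_fun hcomp y
    rw [h3, hy, eB.apply_symm_apply] at h1
    exact h1
  -- evaluation
  set E : (𝓞 K)[X] →+* IsLocalRing.ResidueField B := ρ.comp (eval₂RingHom j θB) with hE
  have hEt : ∀ t : 𝓞 K, t - t₀ ∈ v.asIdeal → E = (ρ.comp j).comp (evalRingHom t) := by
    intro t ht
    have h1 : ρ (j t) = ρ θB := by
      have h3 := (hjker _).2 ht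
      rw [map_sub, map_sub, sub_eq_zero] at h3
      rw [h3, ht₀]
    apply Polynomial.ringHom_ext
    · intro a
      simp [hE]
    · simp [hE, h1]
  have hEL : ∀ q : (𝓞 K)[X], algebraMap B L (eval₂RingHom j θB q) = q.eval₂ (iL i) θ := by
    intro q
    rw [coe_eval₂RingHom, hom_eval₂, hjL, hθ]
  have hEg : E g = 0 := by
    have h1 : eval₂RingHom j θB g = 0 := by
      apply hBinj
      rw [hEL, hg, map_zero]
    rw [hE, RingHom.comp_apply, h1, map_zero]
  have hEg' : E (derivative g) ≠ 0 := by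
    intro h0
    apply hβw
    rw [← hker]
    have h1 : algebraMap (𝓞 L) B β = algebraMap (𝓞 L) B e * eval₂RingHom j θB (derivative g) := by
      apply hBinj
      rw [map_mul, hEL]
      exact hβ
    rw [h1, map_mul]
    have h3 : ρ (eval₂RingHom j θB (derivative g)) = 0 := h0
    rw [h3, mul_zero]
  -- the polynomial
  set FB := F.map (eval₂RingHom j θB) with hFB
  have hFBL : FB.map (algebraMap B L) = F.map (eval₂RingHom (iL i) θ) := by
    rw [hFB, Polynomial.map_map]
    congr 1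
    apply RingHom.ext
    intro q
    exact hEL q
  have hhB : h.map (algebraMap (𝓞 L) B) = C (algebraMap (𝓞 L) B c) * FB := by
    apply Polynomial.map_injective (algebraMap B L) hBinj
    rw [Polynomial.map_map, hcompL, hh, Polynomial.map_mul, map_C, hFBL]
    rfl
  have hkey : (h.map (Ideal.Quotient.mk w.asIdeal)).map
      (eB : (𝓞 L ⧸ w.asIdeal) →+* IsLocalRing.ResidueField B) =
      C (ρ (algebraMap (𝓞 L) B c)) * F.map E := by
    rw [Polynomial.map_map, ← hcomp, ← Polynomial.map_map, hhB, Polynomial.map_mul, map_C, hFB,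
      Polynomial.map_map]
  have hγ : ρ (algebraMap (𝓞 L) B c) ≠ 0 := fun h0 => hc ((hker _).1 h0)
  have hFsep : (F.map E).Separable := by
    have h1 : ((h.map (Ideal.Quotient.mk w.asIdeal)).map
      (eB : (𝓞 L ⧸ w.asIdeal) →+* IsLocalRing.ResidueField B)).Separable := hsep.map
    rw [hkey] at h1
    exact h1.of_mul_right
  have hFroot : ∀ r, (F.map E).eval r ≠ 0 := by
    intro r hr
    have h1 : ((h.map (Ideal.Quotient.mk w.asIdeal)).map
      (eB : (𝓞 L ⧸ w.asIdeal) →+* IsLocalRing.ResidueField B)).eval r = 0 := by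
      rw [hkey, eval_mul, hr, mul_zero]
    apply hroot (eB.symm r)
    apply eB.injective
    rw [map_zero, ← h1]
    conv_rhs => rw [← eB.apply_symm_apply r]
    exact (eval_map_apply (eB : (𝓞 L ⧸ w.asIdeal) →+* IsLocalRing.ResidueField B) _).symm
  have hElc : E F.leadingCoeff ≠ 0 := by
    intro h0
    apply hlc
    have h1 := congrArg (fun q => q.coeff F.natDegree) hkey
    simp only [coeff_map, coeff_C_mul] at h1
    have h3 : E (F.coeff F.natDegree) = 0 := h0
    rw [h3, mul_zero] at h1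
    have h4 : (eB : (𝓞 L ⧸ w.asIdeal) →+* IsLocalRing.ResidueField B)
      (Ideal.Quotient.mk w.asIdeal (h.coeff F.natDegree)) = 0 := h1
    rw [← hdeg] at h4
    have h5 : Ideal.Quotient.mk w.asIdeal h.leadingCoeff = 0 := by
      apply eB.injective
      rw [map_zero]
      exact h4
    exact Ideal.Quotient.eq_zero_iff_mem.1 h5
  -- the residue field of `v`
  let q : 𝓞 K ⧸ v.asIdeal →+* IsLocalRing.ResidueField B :=
    Ideal.Quotient.lift v.asIdeal (ρ.comp j) (fun x hx => (hjker x).2 hx)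
  have hq : q.comp (Ideal.Quotient.mk v.asIdeal) = ρ.comp j := by
    ext x
    rfl
  have hmap : ∀ t : 𝓞 K, t - t₀ ∈ v.asIdeal →
      ((mem F t).map (Ideal.Quotient.mk v.asIdeal)).map q = F.map E := by
    intro t ht
    rw [Polynomial.map_map, hq, mem, Polynomial.map_map, ← hEt t ht]
  refine ⟨v, hvn, ?_, t₀, ?_, ?_⟩
  · rw [hmemv, map_ofNat]
    exact h2
  · intro h0
    apply hEg'
    rw [hEt t₀ (by rw [sub_self]; exact zero_mem _)]
    exact (hjker _).2 h0
  · intro t ht
    have hlct : (F.leadingCoeff).eval t ∉ v.asIdeal := by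
      intro h0
      apply hElc
      rw [hEt t ht]
      exact (hjker _).2 h0
    have hlct0 : (evalRingHom t) F.leadingCoeff ≠ 0 := by
      intro h0
      apply hlct
      have : (F.leadingCoeff).eval t = 0 := h0
      rw [this]
      exact zero_mem _
    refine ⟨?_, ?_, ?_, ?_, ?_⟩
    · rw [← hjker]
      have h1 : E g = ρ (j (g.eval t)) := by
        rw [hEt t ht]
        rfl
      rw [← h1, hEg]
    · exact natDegree_map_of_leadingCoeff_ne_zero _ hlct0
    · rw [mem, leadingCoeff_map_of_leadingCoeff_ne_zero _ hlct0]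
      exact hlct
    · let _ : Field (𝓞 K ⧸ v.asIdeal) := Ideal.Quotient.field v.asIdeal
      have h1 : (((mem F t).map (Ideal.Quotient.mk v.asIdeal)).map q).Separable := by
        rw [hmap t ht]
        exact hFsep
      exact (separable_map q).1 h1
    · intro r hr
      apply hFroot (q r)
      rw [← hmap t ht, eval_map_apply, hr, map_zero]

end Pool.Agent.V11235.SC
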